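import Pool.Agent.H37.CNR.Stmts

/-!
# Row WCC of the board `cnr` (helper56)
-/

set_option autoImplicit false

namespace Pool.CND

open Finset

/-- a `p`-group of automorphisms which fix the place lies in `ram 1` -/
theorem wcc_le (hWLD : S_WLD) {p : ℕ} {k L G : Type} [Field k] [Field L] [Algebra k L] [Group G]
    [Finite G] {P : Place k L} {ρ : G →* (L ≃ₐ[k] L)} (hp : p.Prime) (hch : CharP k p)
    (hinj : Function.Injective ρ) {A : Subgroup G} (hAc : ∃ a : ℕ, Nat.card A = p ^ a)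
    (hfix : ∀ a ∈ A, Fixes P (ρ a)) : ∀ a ∈ A, a ∈ ram P ρ 1 := by
  obtain ⟨WA, IA, hWA, hIA, -, -, m, hm, hcm⟩ := hWLD p k L A P (ρ.comp A.subtype) hp hch
    (hinj.comp A.subtype_injective)
  have hIAtop : IA = ⊤ := by
    rw [eq_top_iff]
    intro a _
    show a ∈ (IA : Set A)
    rw [hIA]
    refine ⟨hfix a a.2, fun u hu hu1 => ?_⟩
    by_cases h : (ρ.comp A.subtype) a u = u
    · exact Or.inl h
    · right
      have h1 := P.ge_sub ((hfix a a.2).ge (P.ge_ord u)) (P.ge_ord u)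
      have h2 := h1.resolve_left (sub_ne_zero.2 h)
      rw [hu1] at h2
      simpa using h2
  obtain ⟨a, ha⟩ := hAc
  rw [hIAtop, Subgroup.card_top] at hcm
  have hm1 : m = 1 := by
    have hdvd : m ∣ p ^ a := ⟨Nat.card WA, by rw [← ha, hcm]⟩
    obtain ⟨i, -, hi⟩ := (Nat.dvd_prime_pow hp).1 hdvd
    rcases Nat.eq_zero_or_pos i with h | h
    · rw [hi, h, pow_zero]
    · exact absurd (hi ▸ dvd_pow_self p h.ne') hm
  rw [hm1, one_mul] at hcm
  have hWAtop : WA = ⊤ := Subgroup.eq_top_of_card_eq WA hcm.symm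
  intro x hx
  have h1 : (⟨x, hx⟩ : A) ∈ (WA : Set A) := by
    rw [hWAtop]
    exact trivial
  rw [hWA] at h1
  exact h1

theorem wcc_sm {G : Type} [Group G] [Fintype G] (b : G → ℤ) (Q : G → Prop) [DecidablePred Q] :
    sm b {g | Q g} = ∑ g ∈ univ.filter Q, b g := by
  unfold sm
  apply sum_congr _ (fun _ _ => rfl)
  ext
  simp

theorem wcc_thm (hWP2 : S_WP2) (hWP3 : S_WP3) (hCNV : S_CNV) (hUMW : S_UMW) (hWLD : S_WLD) :
    S_WCC := by
  classical
  intro p k L L' G H _ _ _ _ _ _ _ _ _ ρ ρ' j π P P' e' n A I l hp hch hwx hA hAc hI hl hU hlt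
  obtain ⟨W', I', hW', hI', hWI, -, -⟩ := hWLD p k L' G P' ρ' hp hch hwx.inj'
  obtain ⟨-, hr1, hcI⟩ := hWP3 p k L L' G H ρ ρ' j π P P' e' A I' I hp hch hwx hA hI' hI
  have hAfix : ∀ a ∈ A, Fixes P' (ρ' a) := fun a ha => ((hA a).1 ha).2
  have hAW : A ≤ W' := by
    intro a ha
    show a ∈ (W' : Set G)
    rw [hW']
    exact wcc_le hWLD hp hch hwx.inj' hAc hAfix a ha
  have hWfix : ∀ g ∈ W', Fixes P' (ρ' g) := by
    intro g hg
    have h1 : g ∈ (W' : Set G) := hg
    rw [hW'] at h1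
    exact h1.1
  have hWram : ∀ g ∈ W', π g ∈ ram P ρ 1 := by
    intro g hg
    have h1 : g ∈ (W' : Set G) := hg
    rw [hW'] at h1
    exact (hr1 (π g)).2 ⟨g, h1, rfl⟩
  set b' : G → ℤ := fun g => P'.b (ρ' g) with hb'
  have hUM : UM b' W' := hUMW k L' G P' ρ' W' hwx.inj' hW'
  have hπA : ∀ g ∈ W', g ∉ A → π g ≠ 1 := by
    intro g hg hgA h1
    exact hgA ((hA g).2 ⟨h1, hWfix g hg⟩)
  have hcos : ∀ g ∈ W', g ∉ A → sm b' {x | g⁻¹ * x ∈ A} = Nat.card A * P.b (ρ (π g)) :=
    fun g hg hgA => (hWP2 k L L' G H ρ ρ' j π P P' e' A g hwx hA (hWfix g hg)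
      (hπA g hg hgA)).2
  have hApos : (0 : ℤ) < Nat.card A := by exact_mod_cast Nat.card_pos
  have hAposQ : (0 : ℚ) < Nat.card A := by exact_mod_cast Nat.card_pos
  -- `l + ∑ = |A| n`
  have hUA : l + sm b' {g | g ∈ A ∧ g ≠ 1} = Nat.card A * n := by
    have h1 := hU
    unfold U at h1
    rw [div_eq_iff hAposQ.ne'] at h1
    have h2 : ((l + sm b' {g | g ∈ A ∧ g ≠ 1} : ℤ) : ℚ) = ((Nat.card A * n : ℤ) : ℚ) := by
      push_cast
      rw [h1]
      ring
    exact_mod_cast h2
  -- the last value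
  have hlst : IsLst b' W' l := by
    constructor
    · obtain ⟨g, hg, hg1, hgl⟩ := hl.mem
      exact ⟨g, hAW hg, hg1, hgl⟩
    · by_contra hcon
      push Not at hcon
      obtain ⟨g1, hg1W, hg11, hg1l⟩ := hcon
      obtain ⟨g₀, hg₀, hmax⟩ := Finset.exists_max_image
        (univ.filter (fun g : G => g ∈ W' ∧ g ≠ 1)) b' ⟨g1, by simp [hg1W, hg11]⟩
      rw [mem_filter] at hg₀
      have hbig : l < b' g₀ := lt_of_lt_of_le hg1l (hmax g1 (by simp [hg1W, hg11]))
      have hgA : g₀ ∉ A := by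
        intro h
        have := hl.le g₀ h hg₀.2.2
        exact absurd hbig (not_lt.2 this)
      have h1 := hcos g₀ hg₀.2.1 hgA
      have h2 : P.b (ρ (π g₀)) < n := hlt _ (hWram g₀ hg₀.2.1) (hπA g₀ hg₀.2.1 hgA)
      have h3 : l + sm b' {g | g ∈ A ∧ g ≠ 1} ≤ sm b' {x | g₀⁻¹ * x ∈ A} := by
        have e1 : sm b' {x | g₀⁻¹ * x ∈ A} = ∑ a ∈ univ.filter (fun a : G => a ∈ A), b' (g₀ * a) := by
          rw [wcc_sm b' (fun x => g₀⁻¹ * x ∈ A)]
          refine Finset.sum_bij' (fun x _ => g₀⁻¹ * x) (fun a _ => g₀ * a) ?_ ?_ ?_ ?_ ?_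
          · intro x hx
            simpa using hx
          · intro a ha
            simpa using ha
          · intro x _
            simp
          · intro a _
            simp
          · intro x _
            simp
        have e2 : univ.filter (fun a : G => a ∈ A) =
            insert 1 (univ.filter (fun a : G => a ∈ A ∧ a ≠ 1)) := by
          ext a
          simp only [mem_filter, mem_univ, true_and, mem_insert]
          constructor
          · intro ha
            by_cases h : a = 1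
            · exact Or.inl h
            · exact Or.inr ⟨ha, h⟩
          · rintro (h | h)
            · rw [h]; exact one_mem A
            · exact h.1
        have e3 : sm b' {g | g ∈ A ∧ g ≠ 1} = ∑ a ∈ univ.filter (fun a : G => a ∈ A ∧ a ≠ 1), b' a :=
          wcc_sm b' (fun a => a ∈ A ∧ a ≠ 1)
        rw [e1, e2, sum_insert (by simp), mul_one, e3]
        refine add_le_add hbig.le (sum_le_sum ?_)
        intro a ha
        rw [mem_filter] at ha
        have hne : g₀ * a ≠ 1 := by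
          intro h
          apply hgA
          rw [mul_eq_one_iff_eq_inv] at h
          rw [h]
          exact inv_mem ha.2.1
        have h4 := hUM.mul g₀ hg₀.2.1 a (hAW ha.2.1) hg₀.2.2 ha.2.2 hne
        have h5 := hl.le a ha.2.1 ha.2.2
        have h6 : min (b' g₀) (b' a) = b' a := min_eq_right (le_trans h5 hbig.le)
        rw [h6] at h4
        exact h4
      rw [hUA, h1] at h3
      have h7 := le_of_mul_le_mul_left h3 hApos
      omega
  -- the sum outside `A`
  have hout : sm b' {g | g ∈ W' ∧ g ∉ A} =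
      Nat.card A * sm (fun w => P.b (ρ w)) {w | w ∈ ram P ρ 1 ∧ w ≠ 1} := by
    rw [wcc_sm b' (fun g => g ∈ W' ∧ g ∉ A),
      wcc_sm (fun w => P.b (ρ w)) (fun w => w ∈ ram P ρ 1 ∧ w ≠ 1)]
    rw [← Finset.sum_fiberwise_of_maps_to (s := univ.filter (fun g : G => g ∈ W' ∧ g ∉ A))
      (t := univ.filter (fun w : H => w ∈ ram P ρ 1 ∧ w ≠ 1)) (g := fun g => π g)
      (by
        intro g hg
        simp only [mem_filter, mem_univ, true_and] at hg ⊢
        exact ⟨hWram g hg.1, hπA g hg.1 hg.2⟩), Finset.mul_sum]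
    apply sum_congr rfl
    intro h hh
    simp only [mem_filter, mem_univ, true_and] at hh
    obtain ⟨g, hg, hgh⟩ := (hr1 h).1 hh.1
    have hgW : g ∈ W' := by
      show g ∈ (W' : Set G)
      rw [hW']
      exact hg
    have hgA : g ∉ A := by
      intro h1
      apply hh.2
      rw [← hgh]
      exact ((hA g).1 h1).1
    have h2 := hcos g hgW hgA
    rw [hgh] at h2
    rw [← h2, wcc_sm b' (fun x => g⁻¹ * x ∈ A)]
    apply sum_congr _ (fun _ _ => rfl)
    ext x
    simp only [mem_filter, mem_univ, true_and]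
    constructor
    · rintro ⟨⟨hxW, hxA⟩, hxh⟩
      rw [hA]
      refine ⟨?_, hWfix _ (mul_mem (inv_mem hgW) hxW)⟩
      rw [map_mul, map_inv, hgh, hxh, inv_mul_cancel]
    · intro hx
      have hxW : x ∈ W' := by
        have := mul_mem hgW (hAW hx)
        rwa [mul_inv_cancel_left] at this
      have hxh : π x = h := by
        have h3 := ((hA _).1 hx).1
        rw [map_mul, map_inv, hgh, inv_mul_eq_one] at h3
        exact h3.symm
      refine ⟨⟨hxW, ?_⟩, hxh⟩
      intro hxA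
      apply hh.2
      rw [← hxh]
      exact ((hA x).1 hxA).1
  have hsplit : sm b' {g | g ∈ W' ∧ g ≠ 1} =
      sm b' {g | g ∈ A ∧ g ≠ 1} + sm b' {g | g ∈ W' ∧ g ∉ A} := by
    rw [wcc_sm b' (fun g => g ∈ W' ∧ g ≠ 1), wcc_sm b' (fun g => g ∈ A ∧ g ≠ 1),
      wcc_sm b' (fun g => g ∈ W' ∧ g ∉ A), ← sum_union]
    · apply sum_congr _ (fun _ _ => rfl)
      ext x
      simp only [mem_filter, mem_univ, true_and, mem_union]
      constructor
      · rintro ⟨h1, h2⟩
        by_cases h3 : x ∈ A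
        · exact Or.inl ⟨h3, h2⟩
        · exact Or.inr ⟨h1, h3⟩
      · rintro (⟨h1, h2⟩ | ⟨h1, h2⟩)
        · exact ⟨hAW h1, h2⟩
        · refine ⟨h1, ?_⟩
          rintro rfl
          exact h2 (one_mem A)
    · rw [Finset.disjoint_left]
      intro x hx hx'
      simp only [mem_filter, mem_univ, true_and] at hx hx'
      exact hx'.2 hx.1
  have hcon := hCNV k L' G P' ρ' W' I' l hwx.inj' hW' hI' hlst
  have hval : (Nat.card W' : ℚ) * U (fun g => P'.b (ρ' g)) W' l / Nat.card I' =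
      (((n : ℤ) + sm (fun w => P.b (ρ w)) {w | w ∈ ram P ρ 1 ∧ w ≠ 1} : ℤ) : ℚ) /
        Nat.card I := by
    have hWpos : (0 : ℚ) < Nat.card W' := by exact_mod_cast Nat.card_pos
    have hIpos : (0 : ℚ) < Nat.card I := by exact_mod_cast Nat.card_pos
    have h1 : (Nat.card W' : ℚ) * U (fun g => P'.b (ρ' g)) W' l =
        ((l + sm b' {g | g ∈ W' ∧ g ≠ 1} : ℤ) : ℚ) := by
      unfold U
      rw [mul_div_cancel₀ _ hWpos.ne']
      push_cast
      rfl
    have h2 : l + sm b' {g | g ∈ W' ∧ g ≠ 1} = Nat.card A *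
        ((n : ℤ) + sm (fun w => P.b (ρ w)) {w | w ∈ ram P ρ 1 ∧ w ≠ 1}) := by
      rw [hsplit, hout, mul_add, ← hUA]
      ring
    rw [h1, h2, hcI]
    push_cast
    rw [mul_div_mul_left _ _ hAposQ.ne']
  rw [← hval]
  exact hcon

end Pool.CND
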